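import Mathlib
import Pool.Agent.H977R3.CM.Defs
import Pool.Agent.H204R3.CM.Defs
import Pool.Agent.Q29.EP.Defs
import Pool.Agent.Q29.EP.RowsDefs
import Pool.Agent.Y1.KN.Defs

/-!
# Properties of the CM types of CM fields: a definite proportion of all types, and almost all types

In all definitions `Q I K Φ` is a property of the families of CM types `Φ i` of CM fields `K i`.
-/

set_option autoImplicit false

namespace Pool.Agent.Run7.h879.HC

open NumberField Module Pool.Agent.H204R3.CM Pool.Agent.H977R3.CM Pool.Agent.Y1.KN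
  Pool.Agent.Q29.EP

/-- A property of families of CM types. -/
abbrev CMProperty : Type 1 :=
  ∀ (I : Type) (_ : Fintype I) (K : I → Type) (_ : ∀ i, Field (K i)) (_ : ∀ i, NumberField (K i))
    (_ : ∀ i, IsCMField (K i)) (_ : ∀ i, Set (K i →+* ℂ)), Prop

variable (Q : CMProperty)

/-- **A definite proportion of all CM types.** For pairwise independent CM fields `K i` of degree
`2 g i`, `g i = r i ^ k i` with prime numbers `r i` (`g i ≥ 8` if `r i = 2`), `Q` holds for at least
`(∏ (1 - 1 / r i)) 2 ^ (∑ g i)` of the `2 ^ (∑ g i)` families of types. -/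
def ForProportion : Prop :=
  ∀ (I : Type) [hI : Fintype I] (K : I → Type) [hK : ∀ i, Field (K i)]
    [hN : ∀ i, NumberField (K i)] [hC : ∀ i, IsCMField (K i)]
    (r k : I → ℕ), PairwiseIndep K → (∀ i, (r i).Prime) →
    (∀ i, finrank ℚ (K i) = 2 * r i ^ k i) → (∀ i, r i = 2 → 8 ≤ r i ^ k i) →
    (∏ i, (1 - 1 / (r i : ℝ))) * 2 ^ (∑ i, r i ^ k i) ≤
      (({Φ : ∀ i, Set (K i →+* ℂ) | (∀ i, IsCMType (Φ i)) ∧
        Q I hI K hK hN hC Φ}.ncard : ℕ) : ℝ)

/-- **One of two CM types.** For the fields as in `ForProportion` there are sets `B i` of embeddings,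
stable under complex conjugation, such that for every family of types `Φ` the property `Q` holds for
the family changed on the sets `B i` for all `i` in some set `J`. -/
def ForOneOfTwo : Prop :=
  ∀ (I : Type) [hI : Fintype I] (K : I → Type) [hK : ∀ i, Field (K i)]
    [hN : ∀ i, NumberField (K i)] [hC : ∀ i, IsCMField (K i)]
    (r k : I → ℕ), PairwiseIndep K → (∀ i, (r i).Prime) →
    (∀ i, finrank ℚ (K i) = 2 * r i ^ k i) → (∀ i, r i = 2 → 8 ≤ r i ^ k i) →
    ∃ B : ∀ i, Set (K i →+* ℂ), (∀ i φ, ComplexEmbedding.conjugate φ ∈ B i ↔ φ ∈ B i) ∧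
      ∀ Φ : ∀ i, Set (K i →+* ℂ), (∀ i, IsCMType (Φ i)) →
        ∃ J : Set I, Q I hI K hK hN hC (change B Φ J)

/-- **Abelian fields.** There is a number `g₀` such that for all pairwise independent CM fields
`K i` that are abelian over `ℚ`, of degrees `2 g i ≥ 2 g₀`, the property `Q` holds for a proportion
of at least `(4 / 25) ^ (number of the fields)` of the families of types. -/
def ForSixteenPercent : Prop :=
  ∃ g₀ : ℕ, ∀ (I : Type) [hI : Fintype I] (K : I → Type) [hK : ∀ i, Field (K i)]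
    [hN : ∀ i, NumberField (K i)] [hC : ∀ i, IsCMField (K i)] (g : I → ℕ), PairwiseIndep K →
    (∀ i, IsAbelianOverRat (K i)) → (∀ i, g₀ ≤ g i) → (∀ i, finrank ℚ (K i) = 2 * g i) →
    (4 / 25 : ℝ) ^ Fintype.card I * 2 ^ (∑ i, g i) ≤
      (({Φ : ∀ i, Set (K i →+* ℂ) |
        (∀ i, IsCMType (Φ i)) ∧ Q I hI K hK hN hC Φ}.ncard : ℕ) : ℝ)

/-- **Almost all CM types.** For pairwise independent CM fields `K i` of degrees `2 g i` the property
`Q` holds for all families of types but at most `2 ^ (∑ g i) * ∑ C * rate (K i) (g i) (q i)`; here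
`q i` is a prime factor of `g i`, or `q i = 1`. -/
def ForAlmostAll : Prop :=
  ∃ C : ℝ, 0 ≤ C ∧ ∀ (I : Type) [hI : Fintype I] (K : I → Type) [hK : ∀ i, Field (K i)]
    [hN : ∀ i, NumberField (K i)] [hC : ∀ i, IsCMField (K i)] (g q : I → ℕ), PairwiseIndep K →
    (∀ i, finrank ℚ (K i) = 2 * g i) → (∀ i, q i ∣ g i ∧ (q i = 1 ∨ (q i).Prime)) →
    (({Φ : ∀ i, Set (K i →+* ℂ) | (∀ i, IsCMType (Φ i)) ∧
      ¬ Q I hI K hK hN hC Φ}.ncard : ℕ) : ℝ) ≤
      2 ^ (∑ i, g i) * ∑ i, C * rate (K i) (g i) (q i)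

end Pool.Agent.Run7.h879.HC
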