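import Mathlib
import Pool.Agent.Q29.EP.Rows
import Pool.Agent.Q29.EP.RowsCT
import Pool.Agent.TH170.GS.Main
import Pool.Agent.TH170.GS.Rel
import Pool.Agent.Y1.KN.All
import Pool.Agent.Y1.KN.Use
import Pool.Agent.Run7.h879.HC.Defs

/-!
# From types which are not degenerate to a definite proportion of all CM types
-/

set_option autoImplicit false
set_option linter.unusedSectionVars false

namespace Pool.Agent.Run7.h879.HC

open NumberField Module Finset Pool.Agent.H204R3.CM Pool.Agent.H977R3.CM Pool.Agent.TH170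
  Pool.Agent.TH170.CM Pool.Agent.TH170.MF Pool.Agent.TH170.FW Pool.Agent.Y1.KN Pool.Agent.Q29.EP
  Pool.Agent.Q29.DP Pool.Agent.Q29.OS

/-- `Q` holds for all families of types that are not degenerate. -/
def NotDegenerate (Q : CMProperty) : Prop :=
  ∀ (I : Type) [hI : Fintype I] (K : I → Type) [hK : ∀ i, Field (K i)]
    [hN : ∀ i, NumberField (K i)] [hC : ∀ i, IsCMField (K i)] (Φ : ∀ i, Set (K i →+* ℂ)),
    PairwiseIndep K → (∀ i, IsCMType (Φ i)) → (∀ i, Φ i ∉ degTypes (fun _ : K i →+* ℂ => 1)) →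
      Q I hI K hK hN hC Φ

variable {Q : CMProperty} (h : NotDegenerate Q)

include h

theorem forProportion : ForProportion Q := by
  intro I _ K _ _ _ ℓ k hind hℓ hdeg h8
  refine le_trans ?_ (Nat.cast_le.2 (prod_le_fam (M := fun _ _ => 1) fun Φ hΦ hno =>
    h I K Φ hind hΦ fun i => notMem_degTypes_of_noRelations (hno i)))
  rw [Nat.cast_prod]
  calc (∏ i, (1 - 1 / (ℓ i : ℝ))) * 2 ^ (∑ i, ℓ i ^ k i) =
      ∏ i, (1 - 1 / (ℓ i : ℝ)) * 2 ^ (ℓ i ^ k i) := by
        rw [prod_mul_distrib, prod_pow_eq_pow_sum]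
    _ ≤ _ := by
      refine prod_le_prod (fun i _ => ?_) fun i _ => proportion (hℓ i) (hdeg i) (h8 i)
      have h1 : (1 : ℝ) ≤ ℓ i := by exact_mod_cast (hℓ i).one_lt.le
      have h2 : 1 / (ℓ i : ℝ) ≤ 1 := by
        rw [div_le_one (by linarith)]
        exact h1
      have h3 : (0 : ℝ) ≤ 1 - 1 / (ℓ i : ℝ) := by linarith
      positivity

theorem forOneOfTwo : ForOneOfTwo Q := by
  classical
  intro I _ K _ _ _ r k hind hr hdeg h8
  have hpp : ∀ i, PrimePowerDegree (fun _ : K i →+* ℂ => (1 : ℤ)) := by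
    intro i
    have hne : Nonempty (K i →+* ℂ) := inferInstance
    obtain ⟨φ⟩ := hne
    refine ⟨r i, k i, hr i, hdeg i, ⟨φ, fun hd => ?_⟩, fun h2 => ⟨h8 i h2, fun _ => odd_one⟩⟩
    have h3 : (r i : ℤ) ∣ 1 := hd
    have h4 : r i ∣ 1 := by exact_mod_cast h3
    exact (hr i).one_lt.ne' (Nat.dvd_one.1 h4)
  choose B hB hmain using fun i => exists_change (M := fun _ : K i →+* ℂ => (1 : ℤ))
    (fun _ => rfl) (hpp i)
  refine ⟨B, hB, fun Φ hΦ => ⟨{i | ¬ NoRelations (fun _ => 1) (Φ i)}, ?_⟩⟩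
  refine h I K _ hind (fun i => ?_) fun i => notMem_degTypes_of_noRelations ?_
  · unfold change
    split_ifs
    · exact isCMType_symmDiff (hB i) (hΦ i)
    · exact hΦ i
  · unfold change
    split_ifs with h1
    · exact (hmain i (Φ i) (hΦ i)).resolve_left h1
    · exact not_not.1 h1

theorem forSixteenPercent : ForSixteenPercent Q := by
  obtain ⟨g₀, h1⟩ := fam_abelian
  refine ⟨g₀, ?_⟩
  intro I _ K _ _ _ g hind hab hg0 hg
  have : ∀ i, IsGalois ℚ (K i) := fun i => (hab i).1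
  exact h1 I K (fun _ _ => 1) g _ (fun i => (hab i).2) (fun _ _ => odd_one) (fun _ _ => rfl) hg0
    hg fun Φ hΦ hno => h I K Φ hind hΦ fun i => notMem_degTypes_of_noRelations (hno i)

theorem forAlmostAll : ForAlmostAll Q := by
  obtain ⟨C, hC0, hC⟩ := families_holds
  refine ⟨C, hC0, ?_⟩
  intro I _ K _ _ _ g q hind hg hq
  have h1 := hC I K (fun _ _ => 1) (fun _ => 1) g q (fun _ _ => rfl) (fun _ => one_ne_zero)
    (fun _ _ => one_dvd _) hg hq (fun Φ => Q _ _ _ _ _ _ Φ) (fun Φ hΦ hnd => h I K Φ hind hΦ hnd)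
  simp only [Nat.cast_one, one_pow, mul_one] at h1
  exact h1

omit h in
theorem three (h : NotDegenerate Q) : ForProportion Q ∧ ForOneOfTwo Q ∧ ForSixteenPercent Q :=
  ⟨forProportion h, forOneOfTwo h, forSixteenPercent h⟩

end Pool.Agent.Run7.h879.HC
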