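import Mathlib
import Pool.Agent.Y1.HZ.Defs

/-!
# Absolute Hodge classes on products: definitions

Let `A` be a complex abelian variety, given by the inclusion `per : W → T` of its rational homology
in its tangent space, and `Z` a smooth projective complex variety, whose rational cohomology is given
by `V : Coh v`. The rational cohomology of `A × Z` is `HAZ W v`. (All twists by powers of `2 π i` are
suppressed.)
-/

set_option autoImplicit false

namespace Pool.Agent.Run7.h879.HC

open NumberField Module Pool.Agent.H204R3.CM Pool.Agent.TH131.GHC Pool.Agent.TH504.VY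
  Pool.Agent.TH504.CB Pool.Agent.Y1.HZ

/-- A complex abelian variety `A`, given by the inclusion `per` of its rational homology `W` in its
tangent space `T`, and the rational cohomology `V` of a smooth projective variety `Z`, a Hodge
structure on `ℚ ^ v`. -/
structure Pair where
  W : Type
  T : Type
  [grpW : AddCommGroup W]
  [modW : Module ℚ W]
  [grpT : AddCommGroup T]
  [modT : Module ℂ T]
  per : W →+ T
  v : ℕ
  V : Coh v

attribute [instance] Pair.grpW Pair.modW Pair.grpT Pair.modT

/-- The rational cohomology of `Z`. -/
abbrev Pair.HZ (P : Pair) : Type := Fin P.v → ℚ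

/-- The rational cohomology of `A × Z`. -/
abbrev Pair.HAZ (P : Pair) : Type := TH131.GHC.HAZ P.W P.v

/-- `x` is a Hodge class on `Z`. -/
def Pair.Hodge (P : Pair) (x : P.HZ) : Prop := IsHodgeOn P.V x

/-- `F` is a Hodge class on `A × Z`. -/
def Pair.HodgeA (P : Pair) (F : P.HAZ) : Prop := IsHodgeOnProduct P.per P.V F

/-- The restriction of `F` to the fibre over the origin of `A`. -/
def Pair.fib (P : Pair) (F : P.HAZ) : P.HZ := F 0 (fun l => l.elim0)

/-- All Hodge classes on `A × Z` are sums of products `f ⊗ x` of combinations `f` of products of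
divisor classes on `A` and Hodge classes `x` on `Z`. -/
def Pair.Cross (P : Pair) : Prop := ∀ F : P.HAZ, P.HodgeA F → F ∈ crossSpan P.per P.V

/-- Another cohomology of `Z` and `A × Z`: for instance the product of the algebraic de Rham
cohomology and of the étale cohomology, or the `ℓ`-adic cohomology, as rational vector spaces, and the
restriction `res` to the fibre over the origin of `A`. -/
structure Components where
  LZ : Type
  LA : Type
  [grpLZ : AddCommGroup LZ]
  [modLZ : Module ℚ LZ]
  [grpLA : AddCommGroup LA]
  [modLA : Module ℚ LA]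
  res : LA → LZ

attribute [instance] Components.grpLZ Components.modLZ Components.grpLA Components.modLA

/-- The map which sends a rational class to its components; it is compatible with the restriction to
the fibre. -/
structure Comparison (L : Components) (P : Pair) where
  cZ : P.HZ →ₗ[ℚ] L.LZ
  cA : P.HAZ →ₗ[ℚ] L.LA
  res : ∀ F : P.HAZ, L.res (cA F) = cZ (P.fib F)

/-- For a combination `f` of products of divisor classes on the first abelian variety there is a
combination `f'` of products of divisor classes on the second one (the class of the same cycle, or of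
the conjugate cycle) such that `f ⊗ x` and `f' ⊗ x'` have the same components whenever `x` and `x'`
have. -/
def SameCycles {L : Components} {P P' : Pair} (c : Comparison L P) (c' : Comparison L P') : Prop :=
  ∀ k : ℕ, ∀ f ∈ divisorSpan P.per k, ∃ f' ∈ divisorSpan P'.per k,
    ∀ (x : P.HZ) (x' : P'.HZ), c.cZ x = c'.cZ x' → c.cA (cross f x) = c'.cA (cross f' x')

/-- The conjugates `A^σ`, `Z^σ` of `A` and `Z` for the elements `σ` of a set `S` (for instance the
automorphisms of `ℂ`), the cohomology `L σ` of `Z^σ` and `A^σ × Z^σ`, the map `c₀ σ` which sends a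
rational class on `Z` or `A × Z` to the images under `σ` of its components, and the map `c σ` which
sends a rational class on `Z^σ` or `A^σ × Z^σ` to its components. -/
structure Conjugates (P : Pair) where
  S : Type
  conj : S → Pair
  L : S → Components
  c₀ : ∀ σ, Comparison (L σ) P
  c : ∀ σ, Comparison (L σ) (conj σ)
  same : ∀ σ, SameCycles (c₀ σ) (c σ)

/-- The class `x` on `Z` is an absolute Hodge class: it is a Hodge class, and for all `σ` there is a
Hodge class `x'` on `Z^σ` whose components are the images of those of `x` under `σ`. -/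
def Conjugates.IsAbsolute {P : Pair} (C : Conjugates P) (x : P.HZ) : Prop :=
  P.Hodge x ∧ ∀ σ, ∃ x' : (C.conj σ).HZ, (C.conj σ).Hodge x' ∧ (C.c σ).cZ x' = (C.c₀ σ).cZ x

/-- The class `F` on `A × Z` is an absolute Hodge class. -/
def Conjugates.IsAbsoluteA {P : Pair} (C : Conjugates P) (F : P.HAZ) : Prop :=
  P.HodgeA F ∧ ∀ σ, ∃ F' : (C.conj σ).HAZ, (C.conj σ).HodgeA F' ∧
    (C.c σ).cA F' = (C.c₀ σ).cA F

/-- All Hodge classes on `Z` are absolute Hodge classes. -/
def Conjugates.AbsZ {P : Pair} (C : Conjugates P) : Prop := ∀ x : P.HZ, P.Hodge x → C.IsAbsolute x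

/-- All Hodge classes on `A × Z` are absolute Hodge classes. -/
def Conjugates.AbsAZ {P : Pair} (C : Conjugates P) : Prop :=
  ∀ F : P.HAZ, P.HodgeA F → C.IsAbsoluteA F

/-- The product over `j : J` of the abelian varieties of CM type `(E (t j), Φ (t j))`, and a variety
`Z` with cohomology `V`. -/
def pairOf {ι J : Type} {E : ι → Type} [∀ i, Field (E i)] [∀ i, NumberField (E i)]
    (Φ : ∀ i, Set (E i →+* ℂ)) (t : J → ι) {v : ℕ} (V : Coh v) : Pair where
  W := ∀ j, E (t j)
  T := Tan Φ t
  per := per Φ t
  v := v
  V := V

/-- For the products `A` of copies of the abelian varieties of CM type `(E i, Φ i)`, and for all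
varieties `Z` unrelated to the fields `E i`: all Hodge classes on `A × Z` are sums of products of
combinations of products of divisor classes on `A` and Hodge classes on `Z`, and all Hodge classes on
`A × Z` are absolute Hodge classes if and only if all Hodge classes on `Z` are. -/
def AbsoluteTimes {ι : Type} {E : ι → Type} [∀ i, Field (E i)] (Φ : ∀ i, Set (E i →+* ℂ))
    [∀ i, NumberField (E i)] : Prop :=
  ∀ (J : Type) [Fintype J] (t : J → ι) (v : ℕ) (V : Coh v), (∀ i, UnrelatedHodge V (E i)) →
    (pairOf Φ t V).Cross ∧ ∀ C : Conjugates (pairOf Φ t V), C.AbsAZ ↔ C.AbsZ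

end Pool.Agent.Run7.h879.HC
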