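import Mathlib
import Pool.Agent.Run7.h879.HC.AbsDefs
import Pool.Agent.H204R3.CM.Alt
import Pool.Agent.Y1.HZ.Main

/-!
# Absolute Hodge classes on products
-/

set_option autoImplicit false
set_option linter.unusedSectionVars false

namespace Pool.Agent.Run7.h879.HC

open NumberField Module Matrix Pool.Agent.H204R3.CM Pool.Agent.TH131.GHC Pool.Agent.TH504.VY
  Pool.Agent.TH504.CB Pool.Agent.Y1.HZ

noncomputable section

variable {W T : Type} [AddCommGroup W] [Module ℚ W] [AddCommGroup T] [Module ℂ T]
  {per : W →+ T} {v : ℕ} {V : Coh v}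

/-! ### Sums of Hodge classes on the product -/

theorem hodge_add {F G : HAZ W v} (hF : IsHodgeOnProduct per V F)
    (hG : IsHodgeOnProduct per V G) : IsHodgeOnProduct per V (F + G) := by
  obtain ⟨Φ, h1, h2⟩ := hF
  obtain ⟨Ψ, h3, h4⟩ := hG
  refine ⟨Φ + Ψ, fun k w => ?_, fun k u => ?_⟩
  · change Φ k _ + Ψ k _ = _
    rw [h1, h3]
    funext b
    change ((F k w b : ℚ) : ℂ) + ((G k w b : ℚ) : ℂ) = ((F k w b + G k w b : ℚ) : ℂ)
    push_cast
    rfl
  · have h5 := h2 k u
    have h6 := h4 k u
    rw [Int.cast_zero, zero_smul] at h5 h6 ⊢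
    have h7 : ∀ l, (Φ + Ψ) k (Function.update u l (Complex.I • u l)) =
        Φ k (Function.update u l (Complex.I • u l)) +
          Ψ k (Function.update u l (Complex.I • u l)) := fun l => rfl
    have h8 : (Φ + Ψ) k u = Φ k u + Ψ k u := rfl
    rw [Finset.sum_congr rfl fun l _ => h7 l, Finset.sum_add_distrib, smul_add, h8,
      Matrix.mulVec_add]
    calc _ = ((-Complex.I) • ∑ l, Φ k (Function.update u l (Complex.I • u l)) + V.z *ᵥ Φ k u) +
        ((-Complex.I) • ∑ l, Ψ k (Function.update u l (Complex.I • u l)) + V.z *ᵥ Ψ k u) := by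
          abel
      _ = 0 := by rw [h5, h6, add_zero]

theorem hodge_smul (c : ℚ) {F : HAZ W v} (hF : IsHodgeOnProduct per V F) :
    IsHodgeOnProduct per V (c • F) := by
  obtain ⟨Φ, h1, h2⟩ := hF
  refine ⟨(c : ℝ) • Φ, fun k w => ?_, fun k u => ?_⟩
  · change (c : ℝ) • Φ k _ = _
    rw [h1]
    funext b
    change (c : ℝ) • ((F k w b : ℚ) : ℂ) = ((c * F k w b : ℚ) : ℂ)
    rw [Complex.real_smul]
    push_cast
    rfl
  · have h5 := h2 k u
    rw [Int.cast_zero, zero_smul] at h5 ⊢
    have h7 : ∀ l, ((c : ℝ) • Φ) k (Function.update u l (Complex.I • u l)) =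
        (c : ℝ) • Φ k (Function.update u l (Complex.I • u l)) := fun l => rfl
    have h8 : ((c : ℝ) • Φ) k u = (c : ℝ) • Φ k u := rfl
    rw [Finset.sum_congr rfl fun l _ => h7 l, ← Finset.smul_sum, h8, Matrix.mulVec_smul,
      smul_comm, ← smul_add, h5, smul_zero]

theorem hodge_zero : IsHodgeOnProduct per V (0 : HAZ W v) := by
  refine ⟨0, fun k w => ?_, fun k u => ?_⟩
  · funext b
    change (0 : ℂ) = (((0 : Fin v → ℚ) b : ℚ) : ℂ)
    simp
  · rw [Int.cast_zero, zero_smul]
    change (-Complex.I) • ∑ l : Fin k, (0 : Fin v → ℂ) + V.z *ᵥ (0 : Fin v → ℂ) = 0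
    rw [Finset.sum_const_zero, smul_zero, Matrix.mulVec_zero, add_zero]

/-! ### Products of divisor classes and Hodge classes are Hodge classes -/

theorem norm_w : ‖((1 / Real.sqrt 2 : ℝ) : ℂ) * (1 + Complex.I)‖ = 1 := by
  have h2 : Real.sqrt 2 * Real.sqrt 2 = 2 := Real.mul_self_sqrt (by norm_num)
  have h3 : Real.sqrt 2 ≠ 0 := by positivity
  have h1 : ‖((1 / Real.sqrt 2 : ℝ) : ℂ) * (1 + Complex.I)‖ ^ 2 = 1 := by
    rw [Complex.sq_norm, Complex.normSq_apply]
    simp only [Complex.mul_re, Complex.mul_im, Complex.ofReal_re, Complex.ofReal_im,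
      Complex.add_re, Complex.add_im, Complex.one_re, Complex.one_im, Complex.I_re, Complex.I_im]
    field_simp
    nlinarith [h2]
  have h4 := norm_nonneg (((1 / Real.sqrt 2 : ℝ) : ℂ) * (1 + Complex.I))
  nlinarith [h1, h4]

/-- An invariant form of degree two is killed by the derivation `I`. -/
theorem two_form (ψ : MultilinearMap ℝ (fun _ : Fin 2 => T) ℝ)
    (h : ∀ z : ℂ, ‖z‖ = 1 → ∀ u : Fin 2 → T, ψ (fun l => z • u l) = ψ u) (u : Fin 2 → T) :
    ∑ l, ψ (Function.update u l (Complex.I • u l)) = 0 := by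
  have hu0 : ∀ (a b z : T), Function.update ![a, b] 0 z = ![z, b] := by
    intro a b z
    funext l
    fin_cases l <;> rfl
  have hu1 : ∀ (a b z : T), Function.update ![a, b] 1 z = ![a, z] := by
    intro a b z
    funext l
    fin_cases l <;> rfl
  let β : T →ₗ[ℝ] T →ₗ[ℝ] ℝ := LinearMap.mk₂ ℝ (fun a b => ψ ![a, b])
    (fun a a' b => by
      have := ψ.map_update_add ![a, b] 0 a a'
      rwa [hu0, hu0, hu0] at this)
    (fun c a b => by
      have := ψ.map_update_smul ![a, b] 0 c a
      rwa [hu0, hu0] at this)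
    (fun a b b' => by
      have := ψ.map_update_add ![a, b] 1 b b'
      rwa [hu1, hu1, hu1] at this)
    (fun c a b => by
      have := ψ.map_update_smul ![a, b] 1 c b
      rwa [hu1, hu1] at this)
  have hβ : ∀ a b, β a b = ψ ![a, b] := fun a b => rfl
  have hinv : ∀ z : ℂ, ‖z‖ = 1 → ∀ a b, β (z • a) (z • b) = β a b := by
    intro z hz a b
    rw [hβ, hβ, ← h z hz ![a, b]]
    congr 1
    funext l
    fin_cases l <;> rfl
  have h1 : ∀ a b, β (Complex.I • a) (Complex.I • b) = β a b := hinv _ (by simp)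
  have h2 : ∀ a b, β (Complex.I • a) b + β a (Complex.I • b) = 0 := by
    intro a b
    have h3 := hinv _ norm_w a b
    have h4 : ∀ c : T, (((1 / Real.sqrt 2 : ℝ) : ℂ) * (1 + Complex.I)) • c =
        (1 / Real.sqrt 2 : ℝ) • (c + Complex.I • c) := by
      intro c
      rw [mul_smul, add_smul, one_smul]
      exact (RCLike.real_smul_eq_coe_smul (K := ℂ) (1 / Real.sqrt 2 : ℝ) (c + Complex.I • c)).symm
    rw [h4, h4, map_smul, map_smul, LinearMap.smul_apply, map_add, map_add, LinearMap.add_apply,
      LinearMap.add_apply, h1, smul_eq_mul, smul_eq_mul] at h3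
    have h5 : (1 / Real.sqrt 2) * (1 / Real.sqrt 2) = 1 / 2 := by
      rw [div_mul_div_comm, one_mul, Real.mul_self_sqrt (by norm_num)]
    linear_combination 2 * h3 - 2 * (2 * β a b + β (Complex.I • a) b + β a (Complex.I • b)) * h5
  rw [Fin.sum_univ_two]
  have h3 := h2 (u 0) (u 1)
  rw [hβ, hβ] at h3
  convert h3 using 2
  · congr 1
    funext l
    fin_cases l <;> rfl
  · congr 1
    funext l
    fin_cases l <;> rfl

/-- A product of forms of degree two which are killed by the derivation. -/
theorem prod_form {r : ℕ} (ψ : Fin r → MultilinearMap ℝ (fun _ : Fin 2 => T) ℝ)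
    (h : ∀ s, ∀ u : Fin 2 → T, ∑ l, ψ s (Function.update u l (Complex.I • u l)) = 0)
    (u : Fin r × Fin 2 → T) :
    ∑ l, prodMap ψ (Function.update u l (Complex.I • u l)) = 0 := by
  classical
  rw [Fintype.sum_prod_type]
  refine Finset.sum_eq_zero fun s _ => ?_
  have h1 : ∀ ε, prodMap ψ (Function.update u (s, ε) (Complex.I • u (s, ε))) =
      ψ s (Function.update (fun ε' => u (s, ε')) ε (Complex.I • u (s, ε))) *
        ∏ s' ∈ Finset.univ.erase s, ψ s' (fun ε' => u (s', ε')) := by
    intro ε
    change ∏ s', ψ s' (fun ε' => Function.update u (s, ε) (Complex.I • u (s, ε)) (s', ε')) = _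
    rw [← Finset.mul_prod_erase _ _ (Finset.mem_univ s)]
    congr 1
    · congr 1
      funext ε'
      by_cases h : ε' = ε
      · subst h; simp
      · rw [Function.update_of_ne h, Function.update_of_ne]
        intro h2
        exact h (Prod.mk.inj h2).2
    · refine Finset.prod_congr rfl fun s' hs' => ?_
      congr 1
      funext ε'
      rw [Function.update_of_ne]
      intro h3
      exact Finset.ne_of_mem_erase hs' (Prod.mk.inj h3).1
  rw [Finset.sum_congr rfl fun ε _ => h1 ε, ← Finset.sum_mul]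
  have h2 := h s (fun ε' => u (s, ε'))
  rw [h2, zero_mul]

theorem cross_mem_hodge {k : ℕ} {f : W [⋀^Fin k]→ₗ[ℚ] ℚ} (hf : f ∈ divisorSpan per k)
    {x : Fin v → ℚ} (hx : IsHodgeOn V x) : IsHodgeOnProduct per V (cross f x) := by
  classical
  unfold divisorSpan at hf
  induction hf using Submodule.span_induction with
  | zero =>
    have h1 : cross (0 : W [⋀^Fin k]→ₗ[ℚ] ℚ) x = 0 := by
      unfold cross
      have h2 : (LinearMap.toSpanSingleton ℚ (Fin v → ℚ) x).compAlternatingMap
          (0 : W [⋀^Fin k]→ₗ[ℚ] ℚ) = 0 := by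
        ext w
        simp
      rw [h2, Pi.single_zero]
    rw [h1]
    exact hodge_zero
  | add f g _ _ hf hg =>
    have h1 : cross (f + g) x = cross f x + cross g x := by
      unfold cross
      have h2 : (LinearMap.toSpanSingleton ℚ (Fin v → ℚ) x).compAlternatingMap (f + g) =
          (LinearMap.toSpanSingleton ℚ (Fin v → ℚ) x).compAlternatingMap f +
            (LinearMap.toSpanSingleton ℚ (Fin v → ℚ) x).compAlternatingMap g := by
        ext w
        simp [add_mul]
      rw [h2, Pi.single_add]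
    rw [h1]
    exact hodge_add hf hg
  | smul c f _ hf =>
    have h1 : cross (c • f) x = c • cross f x := by
      unfold cross
      have h2 : (LinearMap.toSpanSingleton ℚ (Fin v → ℚ) x).compAlternatingMap (c • f) =
          c • (LinearMap.toSpanSingleton ℚ (Fin v → ℚ) x).compAlternatingMap f := by
        ext w
        simp [mul_assoc]
      rw [h2, Pi.single_smul]
    rw [h1]
    exact hodge_smul c hf
  | mem f hf =>
    obtain ⟨r, e, C, hC, hf⟩ := hf
    choose ψ hψ1 hψ2 using hC
    let m : MultilinearMap ℝ (fun _ : Fin k => T) ℝ := MultilinearMap.domDomCongr e (prodMap ψ)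
    have hm : ∀ u, m u = ∏ s, ψ s (fun ε => u (e (s, ε))) := fun u => rfl
    have hD : ∀ u : Fin k → T, ∑ l, m (Function.update u l (Complex.I • u l)) = 0 := by
      intro u
      rw [← prod_form ψ (fun s => two_form (ψ s) (hψ2 s)) (fun a => u (e a))]
      refine Fintype.sum_equiv e.symm _ _ fun l => ?_
      change prodMap ψ (fun a => Function.update u l (Complex.I • u l) (e a)) = _
      congr 1
      funext a
      by_cases h : a = e.symm l
      · subst h
        rw [Equiv.apply_symm_apply, Function.update_self, Function.update_self]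
      · rw [Function.update_of_ne h, Function.update_of_ne]
        intro h2
        exact h (by rw [← h2, Equiv.symm_apply_apply])
    let Ψ : T [⋀^Fin k]→ₗ[ℝ] ℝ := MultilinearMap.alternatization m
    have hΨ : ∀ u, Ψ u = ∑ σ : Equiv.Perm (Fin k), ((Equiv.Perm.sign σ : ℤ) : ℝ) *
        m (fun l => u (σ l)) := by
      intro u
      change MultilinearMap.alternatization m u = _
      rw [MultilinearMap.alternatization_apply]
      refine Finset.sum_congr rfl fun σ _ => ?_
      rw [MultilinearMap.domDomCongr_apply, Units.smul_def, zsmul_eq_mul]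
    have hDΨ : ∀ u : Fin k → T, ∑ l, Ψ (Function.update u l (Complex.I • u l)) = 0 := by
      intro u
      rw [Finset.sum_congr rfl fun l _ => hΨ _, Finset.sum_comm]
      refine Finset.sum_eq_zero fun σ _ => ?_
      rw [← Finset.mul_sum]
      have h1 : ∑ l, m (fun l' => Function.update u l (Complex.I • u l) (σ l')) =
          ∑ l, m (Function.update (fun l' => u (σ l')) l (Complex.I • u (σ l))) := by
        refine Fintype.sum_equiv σ.symm _ _ fun l => ?_
        congr 1
        funext l'
        by_cases h : l' = σ.symm l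
        · subst h
          rw [Equiv.apply_symm_apply, Function.update_self, Function.update_self]
        · rw [Function.update_of_ne h, Function.update_of_ne]
          intro h2
          exact h (by rw [← h2, Equiv.symm_apply_apply])
      rw [h1, hD, mul_zero]
    refine ⟨Pi.single k ((LinearMap.toSpanSingleton ℝ (Fin v → ℂ) (cv x)).compAlternatingMap Ψ),
      fun k' w => ?_, fun k' u => ?_⟩
    · by_cases hk : k' = k
      · subst hk
        rw [cross, Pi.single_eq_same, Pi.single_eq_same]
        change Ψ (fun l => per (w l)) • cv x = cv (f w • x)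
        have h1 : Ψ (fun l => per (w l)) = ((f w : ℚ) : ℝ) := by
          rw [hΨ, hf, Rat.cast_sum]
          refine Finset.sum_congr rfl fun σ _ => ?_
          rw [Rat.cast_mul, Rat.cast_intCast, hm, Rat.cast_prod]
          congr 1
          refine Finset.prod_congr rfl fun s _ => ?_
          have h2 := hψ1 s ![w (σ (e (s, 0))), w (σ (e (s, 1)))]
          rw [← h2]
          congr 1
          funext ε
          fin_cases ε <;> rfl
        rw [h1]
        funext b
        change ((f w : ℚ) : ℝ) • ((x b : ℚ) : ℂ) = ((f w * x b : ℚ) : ℂ)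
        rw [Complex.real_smul]
        push_cast
        rfl
      · rw [cross, Pi.single_eq_of_ne hk, Pi.single_eq_of_ne hk]
        funext b
        change (0 : ℂ) = (((0 : Fin v → ℚ) b : ℚ) : ℂ)
        simp
    · rw [Int.cast_zero, zero_smul]
      by_cases hk : k' = k
      · subst hk
        have h1 : (Pi.single k' ((LinearMap.toSpanSingleton ℝ (Fin v → ℂ)
            (cv x)).compAlternatingMap Ψ) : HAZC T v) k' =
            (LinearMap.toSpanSingleton ℝ (Fin v → ℂ) (cv x)).compAlternatingMap Ψ :=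
          Pi.single_eq_same _ _
        rw [h1]
        change (-Complex.I) • ∑ l, Ψ (Function.update u l (Complex.I • u l)) • cv x +
          V.z *ᵥ (Ψ u • cv x) = 0
        have h2 : V.z *ᵥ cv x = 0 := hx
        rw [← Finset.sum_smul, hDΨ, zero_smul, smul_zero, Matrix.mulVec_smul, h2, smul_zero,
          add_zero]
      · have h1 : (Pi.single k ((LinearMap.toSpanSingleton ℝ (Fin v → ℂ)
            (cv x)).compAlternatingMap Ψ) : HAZC T v) k' = 0 := Pi.single_eq_of_ne hk _
        rw [h1]
        change (-Complex.I) • ∑ l : Fin k', (0 : Fin v → ℂ) + V.z *ᵥ (0 : Fin v → ℂ) = 0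
        rw [Finset.sum_const_zero, smul_zero, Matrix.mulVec_zero, add_zero]

/-! ### The fibre over the origin -/

theorem fibre_hodge {F : HAZ W v} (hF : IsHodgeOnProduct per V F) :
    IsHodgeOn V (F 0 (fun l => l.elim0)) := by
  obtain ⟨Φ, h1, h2⟩ := hF
  have h3 := h1 0 (fun l => l.elim0)
  have h4 := h2 0 (fun l => per ((fun l : Fin 0 => l.elim0) l))
  rw [Int.cast_zero, zero_smul, Finset.univ_eq_empty, Finset.sum_empty, smul_zero, zero_add,
    h3] at h4
  exact h4

/-- The class `1 ⊗ x`. -/
def one (W : Type) [AddCommGroup W] [Module ℚ W] (x : Fin v → ℚ) : HAZ W v :=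
  cross (AlternatingMap.constOfIsEmpty ℚ W (Fin 0) (1 : ℚ)) x

theorem one_zero (x : Fin v → ℚ) (w : Fin 0 → W) : one W x 0 w = x := by
  rw [one, cross, Pi.single_eq_same]
  change (1 : ℚ) • x = x
  exact one_smul _ _

theorem one_mem : (AlternatingMap.constOfIsEmpty ℚ W (Fin 0) (1 : ℚ)) ∈ divisorSpan per 0 := by
  refine Submodule.subset_span ⟨0, Equiv.equivOfIsEmpty _ _, fun l => l.elim0, fun l => l.elim0,
    fun w => ?_⟩
  simp

theorem one_hodge {x : Fin v → ℚ} (hx : IsHodgeOn V x) : IsHodgeOnProduct per V (one W x) :=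
  cross_mem_hodge one_mem hx

/-! ### The theorem -/

theorem absolute_iff {P : Pair} (h : P.Cross) (C : Conjugates P) : C.AbsAZ ↔ C.AbsZ := by
  constructor
  · intro h1 x hx
    refine ⟨hx, fun σ => ?_⟩
    obtain ⟨F', hF', hrel⟩ := (h1 _ (one_hodge (per := P.per) hx)).2 σ
    refine ⟨_, fibre_hodge hF', ?_⟩
    have h2 := congrArg (C.L σ).res hrel
    rw [(C.c σ).res, (C.c₀ σ).res] at h2
    unfold Pair.fib at h2
    rw [one_zero] at h2
    exact h2
  · intro h1 F hF
    refine ⟨hF, fun σ => ?_⟩
    have h2 := h F hF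
    unfold crossSpan at h2
    clear hF
    induction h2 using Submodule.span_induction with
    | zero => exact ⟨0, hodge_zero, by rw [map_zero, map_zero]⟩
    | add F G _ _ hF hG =>
      obtain ⟨F', hF1, hF2⟩ := hF
      obtain ⟨G', hG1, hG2⟩ := hG
      exact ⟨F' + G', hodge_add hF1 hG1, by rw [map_add, map_add, hF2, hG2]⟩
    | smul c F _ hF =>
      obtain ⟨F', hF1, hF2⟩ := hF
      exact ⟨c • F', hodge_smul c hF1, by rw [map_smul, map_smul, hF2]⟩
    | mem F hF =>
      obtain ⟨k, f, x, hf, hx, rfl⟩ := hF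
      obtain ⟨x', hx', hrel⟩ := (h1 x hx).2 σ
      obtain ⟨f', hf', hbox⟩ := C.same σ k f hf
      exact ⟨cross f' x', cross_mem_hodge hf' hx', (hbox x x' hrel.symm).symm⟩

theorem absoluteTimes_of_hodgeTimes {ι : Type} {E : ι → Type} [∀ i, Field (E i)]
    [∀ i, NumberField (E i)] {Φ : ∀ i, Set (E i →+* ℂ)} (h : HodgeTimes Φ) : AbsoluteTimes Φ := by
  intro J _ t v V hun
  have h1 : (pairOf Φ t V).Cross := h J t v V hun
  exact ⟨h1, fun C => absolute_iff h1 C⟩

end

end Pool.Agent.Run7.h879.HC
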