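import Mathlib
import Pool.Agent.Run7.h879.HC.AbsDefs

/-!
# Absolute Hodge classes over an algebraically closed field and the Hodge realization: definitions

Let `k` be an algebraically closed field with an embedding `σ` in `ℂ`, `A` an abelian variety and `Z`
a smooth projective variety over `k`. The complex varieties `σ A`, `σ Z` are given by `P : Pair`: the
inclusion `P.per : W → T` of the rational homology of `σ A` in its tangent space, and the rational
cohomology `P.V` of `σ Z`. (All twists by powers of `2 π i` are suppressed.)
-/

set_option autoImplicit false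

namespace Pool.Agent.Run7.h879.HC

open NumberField Module Pool.Agent.H204R3.CM Pool.Agent.TH131.GHC Pool.Agent.TH504.VY
  Pool.Agent.TH504.CB Pool.Agent.Y1.HZ

/-- The base change along an embedding of `k` in `ℂ` from the cohomology `L` of `Z` and `A × Z`
(de Rham cohomology over `k` and étale cohomology) to the cohomology `L'` of the complex varieties. -/
structure BaseChange (L L' : Components) where
  bZ : L.LZ →ₗ[ℚ] L'.LZ
  bA : L.LA →ₗ[ℚ] L'.LA
  res : ∀ t, L'.res (bA t) = bZ (L.res t)

/-- The product with the class `f` on the complex abelian variety corresponds to the map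
`g` (the product with the class of a cycle on `A` over `k`) on the cohomology over `k`. -/
def Corresponds {L L' : Components} {P : Pair} (b : BaseChange L L') (c : Comparison L' P) {k : ℕ}
    (f : P.W [⋀^Fin k]→ₗ[ℚ] ℚ) (g : L.LZ → L.LA) : Prop :=
  ∀ (t : L.LZ) (x : P.HZ), b.bZ t = c.cZ x → b.bA (g t) = c.cA (cross f x)

/-- The cohomology `L` of `Z` and `A × Z` over `k` (the product of the algebraic de Rham cohomology
over `k` and the étale cohomology); the cohomology `L₀` of `σ Z` and `σ A × σ Z`, the base change `b₀`
and the comparison `c₀` with the rational cohomology; the same (`Q`, `L'`, `b`, `c`) for all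
embeddings `τ` of `k` in `ℂ` (the elements of `S`). -/
structure Realizations (P : Pair) where
  L : Components
  L₀ : Components
  b₀ : BaseChange L L₀
  c₀ : Comparison L₀ P
  S : Type
  Q : S → Pair
  L' : S → Components
  b : ∀ τ, BaseChange L (L' τ)
  c : ∀ τ, Comparison (L' τ) (Q τ)
  same : ∀ k : ℕ, ∀ f ∈ divisorSpan P.per k, ∃ g : L.LZ → L.LA, Corresponds b₀ c₀ f g ∧
    ∀ τ, ∃ f' ∈ divisorSpan (Q τ).per k, Corresponds (b τ) (c τ) f' g

/-- The class `t` on `Z` over `k` is an absolute Hodge class: its image in the cohomology of `τ Z` is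
the class of a Hodge class, for all `τ`. -/
def Realizations.IsAbs {P : Pair} (R : Realizations P) (t : R.L.LZ) : Prop :=
  ∀ τ, ∃ x, (R.Q τ).Hodge x ∧ (R.b τ).bZ t = (R.c τ).cZ x

/-- The class `t` on `A × Z` over `k` is an absolute Hodge class. -/
def Realizations.IsAbsA {P : Pair} (R : Realizations P) (t : R.L.LA) : Prop :=
  ∀ τ, ∃ F, (R.Q τ).HodgeA F ∧ (R.b τ).bA t = (R.c τ).cA F

/-- Each Hodge class on `σ Z` is the image of an absolute Hodge class on `Z`. -/
def Realizations.FullZ {P : Pair} (R : Realizations P) : Prop :=
  ∀ x, P.Hodge x → ∃ t, R.IsAbs t ∧ R.b₀.bZ t = R.c₀.cZ x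

/-- Each Hodge class on `σ A × σ Z` is the image of an absolute Hodge class on `A × Z`. -/
def Realizations.FullAZ {P : Pair} (R : Realizations P) : Prop :=
  ∀ F, P.HodgeA F → ∃ t, R.IsAbsA t ∧ R.b₀.bA t = R.c₀.cA F

/-- For the products `A` of copies of the abelian varieties of CM type `(E i, Φ i)`, and for all
varieties `Z` unrelated to the fields `E i`: all Hodge classes on `σ A × σ Z` are sums of products of
combinations of products of divisor classes on `σ A` and Hodge classes on `σ Z`, and the Hodge
realization is full on the classes on `A × Z` if and only if it is full on the classes on `Z`. -/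
def FullTimes {ι : Type} {E : ι → Type} [∀ i, Field (E i)] (Φ : ∀ i, Set (E i →+* ℂ))
    [∀ i, NumberField (E i)] : Prop :=
  ∀ (J : Type) [Fintype J] (t : J → ι) (v : ℕ) (V : Coh v), (∀ i, UnrelatedHodge V (E i)) →
    (pairOf Φ t V).Cross ∧ ∀ R : Realizations (pairOf Φ t V), R.FullAZ ↔ R.FullZ

end Pool.Agent.Run7.h879.HC
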