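import Mathlib
import Pool.Agent.Run7.h879.HC.RealDefs
import Pool.Agent.Run7.h879.HC.Abs

/-!
# Absolute Hodge classes over an algebraically closed field and the Hodge realization
-/

set_option autoImplicit false
set_option linter.unusedSectionVars false

namespace Pool.Agent.Run7.h879.HC

open NumberField Module Matrix Pool.Agent.H204R3.CM Pool.Agent.TH131.GHC Pool.Agent.TH504.VY
  Pool.Agent.TH504.CB Pool.Agent.Y1.HZ

noncomputable section

variable {P : Pair}

/-- The restriction to the fibre over the origin. -/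
theorem full_fibre {L L' : Components} {P : Pair} (b : BaseChange L L') (c : Comparison L' P)
    {t : L.LA} {F : P.HAZ} (h : b.bA t = c.cA F) : b.bZ (L.res t) = c.cZ (P.fib F) := by
  rw [← b.res, h, c.res]

theorem full_iff (h : P.Cross) (R : Realizations P) : R.FullAZ ↔ R.FullZ := by
  constructor
  · intro h1 x hx
    obtain ⟨t, ht, h2⟩ := h1 _ (one_hodge (per := P.per) hx)
    refine ⟨R.L.res t, fun τ => ?_, ?_⟩
    · obtain ⟨F, hF, h3⟩ := ht τ
      exact ⟨_, fibre_hodge hF, full_fibre _ _ h3⟩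
    · have h3 := full_fibre _ _ h2
      unfold Pair.fib at h3
      rw [one_zero] at h3
      exact h3
  · intro h1 F hF
    have h2 := h F hF
    unfold crossSpan at h2
    clear hF
    induction h2 using Submodule.span_induction with
    | zero => exact ⟨0, fun τ => ⟨0, hodge_zero, by rw [map_zero, map_zero]⟩,
        by rw [map_zero, map_zero]⟩
    | add F G _ _ hF hG =>
      obtain ⟨t, ht, h3⟩ := hF
      obtain ⟨u, hu, h4⟩ := hG
      refine ⟨t + u, fun τ => ?_, by rw [map_add, map_add, h3, h4]⟩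
      obtain ⟨F', hF1, hF2⟩ := ht τ
      obtain ⟨G', hG1, hG2⟩ := hu τ
      exact ⟨F' + G', hodge_add hF1 hG1, by rw [map_add, map_add, hF2, hG2]⟩
    | smul c F _ hF =>
      obtain ⟨t, ht, h3⟩ := hF
      refine ⟨c • t, fun τ => ?_, by rw [map_smul, map_smul, h3]⟩
      obtain ⟨F', hF1, hF2⟩ := ht τ
      exact ⟨c • F', hodge_smul c hF1, by rw [map_smul, map_smul, hF2]⟩
    | mem F hF =>
      obtain ⟨k, f, x, hf, hx, rfl⟩ := hF
      obtain ⟨t, ht, h3⟩ := h1 x hx
      obtain ⟨g, h4, h5⟩ := R.same k f hf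
      refine ⟨g t, fun τ => ?_, h4 t x h3⟩
      obtain ⟨x', hx', h6⟩ := ht τ
      obtain ⟨f', hf', h7⟩ := h5 τ
      exact ⟨cross f' x', cross_mem_hodge hf' hx', h7 t x' h6⟩

theorem fullTimes_of_hodgeTimes {ι : Type} {E : ι → Type} [∀ i, Field (E i)]
    [∀ i, NumberField (E i)] {Φ : ∀ i, Set (E i →+* ℂ)} (h : HodgeTimes Φ) : FullTimes Φ := by
  intro J _ t v V hun
  have h1 : (pairOf Φ t V).Cross := h J t v V hun
  exact ⟨h1, fun R => full_iff h1 R⟩

end

end Pool.Agent.Run7.h879.HC
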